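import Pool.Agent.N207.AX.Few
import Pool.Agent.N207.AX.Ell
import Pool.Agent.N878.AX.LINE
import Pool.Agent.N301.AX.IND
import Pool.Agent.N945.AX.ELL

/-!
# The elliptic analogue of Schanuel's conjecture at almost all algebraic points of arbitrary analytic families

Let `Ω_1, …, Ω_q` be arbitrary lattices in `ℂ`, pairwise without homomorphisms, and let `p_1, …, p_n` be analytic
functions on a connected open set `U` of `ℂ ^ X`, each with values outside one of the lattices, its type, such that for
each lattice no nontrivial combination of the functions of this type with coefficients in the ring of multipliers of the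
lattice is constant. There is no other condition. For an algebraic point `s` in `U` the elliptic analogue of Schanuel's
conjecture says that in general at least `2 n` of the `3 n` numbers `p_i(s)`, `℘(p_i(s))`, `ζ(p_i(s))` are algebraically
independent, if the invariants are algebraic. We show that `2 n` fixed numbers among them do not satisfy any relation of
growing degree and height, with coefficients relative to arbitrary complex constants, for almost all points `s` over all
number fields of growing degree.
-/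

set_option autoImplicit false

open Filter NumberField
open scoped PeriodPair

namespace Pool.Agent.Results.MP_2ad15a_nt.AnalyticFamilies

/-- The Weierstrass zeta function `ζ(z) = ∑ (1/(z-l) + 1/l + z/l²)`, the sum over the lattice (the summand of
`l = 0` is `1/z`, since `1/0 = 0` in Lean). -/
noncomputable def ζ (L : PeriodPair) (z : ℂ) : ℂ :=
  ∑' l : L.lattice, (1 / (z - l) + 1 / l + z / l ^ 2)

/-- An analytic family `p` of `n`-tuples of complex numbers, the `i`-th one outside the lattice `Ω (ty i)`, where the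
lattices `Ω c` have pairwise no homomorphisms, such that for each `c` no nontrivial combination of the `p i` of type `c`
with coefficients in the ring of the endomorphisms of `ℂ / Ω c` is constant -/
structure Family {X : Type} [Fintype X] {q n : ℕ} (U : Set (X → ℂ)) (Ω : Fin q → PeriodPair) (ty : Fin n → Fin q)
    (p : Fin n → (X → ℂ) → ℂ) : Prop where
  isOpen : IsOpen U
  isPreconnected : IsPreconnected U
  nonempty : U.Nonempty
  noHom : ∀ c c', c ≠ c' → ∀ α : ℂ, (∀ w ∈ (Ω c).lattice, α * w ∈ (Ω c').lattice) → α = 0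
  analytic : ∀ i, AnalyticOnNhd ℂ (p i) U
  notMem : ∀ i, ∀ z ∈ U, p i z ∉ (Ω (ty i)).lattice
  independent : ∀ (c : Fin q) (a : Fin n → ℂ) (b : ℂ), (∀ i, ∀ w ∈ (Ω c).lattice, a i * w ∈ (Ω c).lattice) →
    (∀ i, ty i ≠ c → a i = 0) → (∀ z ∈ U, ∑ i, a i * p i z = b) → a = 0

/-- The names of the functions `p_i`, `℘(p_i)`, `ζ(p_i)`. -/
inductive Name (n : ℕ) : Type
  | p : Fin n → Name n
  | wp : Fin n → Name n
  | zeta : Fin n → Name n

/-- The values of the functions `p_i`, `℘(p_i)`, `ζ(p_i)` at the point `z`, with the functions `℘`, `ζ` of the lattice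
`Ω (ty i)`. -/
noncomputable def value {X : Type} {q n : ℕ} (Ω : Fin q → PeriodPair) (ty : Fin n → Fin q)
    (p : Fin n → (X → ℂ) → ℂ) (z : X → ℂ) : Name n → ℂ
  | Name.p i => p i z
  | Name.wp i => ℘[Ω (ty i)] (p i z)
  | Name.zeta i => ζ (Ω (ty i)) (p i z)

/-- `x` is a quotient of two integers of `K` all of whose conjugates are at most `T` in absolute value -/
def Height (K : Type) [Field K] [NumberField K] (T : ℝ) (x : K) : Prop :=
  ∃ a b : 𝓞 K, b ≠ 0 ∧ house (a : K) ≤ T ∧ house (b : K) ≤ T ∧ x = a / b

/-- the points of norm at most `k` at distance at least `1 / k` from the complement of `U` -/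
def Inner {X : Type} [Fintype X] (U : Set (X → ℂ)) (k : ℕ) : Set (X → ℂ) := {z | ‖z‖ ≤ k ∧ Metric.ball z (k : ℝ)⁻¹ ⊆ U}

/-- `S` is covered by `m` hypersurfaces of degree at most `D` -/
def Covered {X : Type} (D m : ℕ) (S : Set (X → ℂ)) : Prop :=
  ∃ Φ : Finset (MvPolynomial X ℂ), Φ.card ≤ m ∧ (∀ R ∈ Φ, R ≠ 0 ∧ R.totalDegree ≤ D) ∧
    ∀ x ∈ S, ∃ R ∈ Φ, MvPolynomial.eval x R = 0

/-- **The exceptional points**: `s` in `K ^ X`, of height at most `T`, in the compact set `Inner U k`, such that some
nonzero polynomial `R` of partial degrees at most `k`, whose coefficients are combinations `∑ ξ i * c i` with integers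
`c i` of `K` all of whose conjugates are at most `T ^ k`, vanishes at the numbers `v s y` -/
def Exceptional {X σ : Type} [Fintype X] (U : Set (X → ℂ)) (v : (X → ℂ) → σ → ℂ) (K : Type) [Field K] [NumberField K]
    (io : K →+* ℂ) (k : ℕ) (ξ : Fin k → ℂ) (T : ℝ) : Set (X → K) :=
  {s | (∀ j, Height K T (s j)) ∧ (fun j => io (s j)) ∈ Inner U k ∧
    ∃ R : MvPolynomial σ ℂ, R ≠ 0 ∧ (∀ y, R.degreeOf y ≤ k) ∧
    (∀ m, ∃ c : Fin k → 𝓞 K, (∀ i (φ : K →+* ℂ), ‖φ (c i : K)‖ ≤ T ^ (k : ℝ)) ∧
      R.coeff m = ∑ i, ξ i * io (c i : K)) ∧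
    MvPolynomial.eval (v fun j => io (s j)) R = 0}

/-- **The elliptic analogue of Schanuel's conjecture for almost all points of a family.** Let `p` be a family of
`n`-tuples of points as above.

One can choose `2 n` different functions `e_k` among the `3 n` functions `p_i`, `℘(p_i)`, `ζ(p_i)` such that there is
`ω → ∞` with the following property: for all large `T`, all number fields `K` of degree at most `ω T`, all embeddings
and all complex numbers `ξ i`, `i < ω T`, the points of `K ^ X` which are exceptional for the numbers `e_k` lie on at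
most `T ^ (1 / ω T)` hypersurfaces of degree at most `T ^ (1 / ω T)`, and there are at most
`T ^ (1 / ω T) * N ^ (|X| - 1)` of them, `N` being the number of elements of `K` of height at most `T`. -/
theorem result (X : Type) [Fintype X] [DecidableEq X] [Nonempty X] (q n : ℕ) (U : Set (X → ℂ))
    (Ω : Fin q → PeriodPair) (ty : Fin n → Fin q) (p : Fin n → (X → ℂ) → ℂ) (h : Family U Ω ty p) :
    ∃ e : Fin (2 * n) → Name n, Function.Injective e ∧
      ∃ (ω : ℝ → ℕ) (T₀ : ℝ), Tendsto ω atTop atTop ∧ Monotone ω ∧ ∀ T, T₀ ≤ T → 0 < ω T ∧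
        ∀ (K : Type) [Field K] [NumberField K], Module.finrank ℚ K ≤ ω T → ∀ (io : K →+* ℂ) (ξ : Fin (ω T) → ℂ),
          Covered ⌊T ^ ((ω T : ℝ)⁻¹)⌋₊ ⌊T ^ ((ω T : ℝ)⁻¹)⌋₊
            ((fun (s : X → K) i => io (s i)) '' Exceptional U (fun z k => value Ω ty p z (e k)) K io (ω T) ξ T) ∧
          (Exceptional U (fun z k => value Ω ty p z (e k)) K io (ω T) ξ T).Finite ∧
          ((Exceptional U (fun z k => value Ω ty p z (e k)) K io (ω T) ξ T).ncard : ℝ) ≤
            T ^ ((ω T : ℝ)⁻¹) * ({x : K | Height K T x}.ncard : ℝ) ^ (Fintype.card X - 1) := by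
  obtain ⟨e, he, hI⟩ := N207.AX.ell_ind (N945.AX.ell (N301.AX.ind N878.AX.line)) h.isOpen h.isPreconnected h.nonempty h.noHom h.analytic h.notMem
    h.independent
  let f : Fin n ⊕ (Fin n ⊕ Fin n) → Name n := Sum.elim Name.p (Sum.elim Name.zeta Name.wp)
  have hf : Function.Injective f := by
    rintro (a | a | a) (b | b | b) hab
    all_goals first
      | (simp only [f, Sum.elim_inl, Sum.elim_inr, Name.p.injEq, Name.wp.injEq, Name.zeta.injEq] at hab
         rw [hab])
      | (simp [f] at hab)
  have hv : ∀ a, (fun z : X → ℂ => value Ω ty p z (f a)) = N207.AX.yq Ω ty p a := by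
    rintro (a | a | a) <;> rfl
  refine ⟨fun k => f (e k), hf.comp he, ?_⟩
  have h2 : (fun (k : Fin (2 * n)) (z : X → ℂ) => value Ω ty p z (f (e k))) =
      fun k => N207.AX.yq Ω ty p (e k) := by
    funext k
    exact hv (e k)
  have hI' : N207.AX.Ind U (fun (k : Fin (2 * n)) (z : X → ℂ) => value Ω ty p z (f (e k))) := by
    rw [h2]
    exact hI
  have han : ∀ k : Fin (2 * n), AnalyticOnNhd ℂ (fun z : X → ℂ => value Ω ty p z (f (e k))) U := by
    intro k
    rw [hv]
    exact N207.AX.yq_an h.analytic h.notMem (e k)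
  refine (N207.AX.few_ind h.isPreconnected h.isOpen h.nonempty han hI').mono fun K _ _ io k ξ T => ?_
  rintro s ⟨h1, h2, R, h3, h4, h5, h6⟩
  exact ⟨h1, h2, R, h3, h4, h5, h6⟩

end Pool.Agent.Results.MP_2ad15a_nt.AnalyticFamilies
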