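import Pool.Agent.N733.TG.M
import Pool.Agent.Results.MP_2ad15a_nt.GrowingDegreeSubgroups

/-!
# The elliptic analogue of Schanuel's conjecture at the values of multiplicative functions

Let `E` be the elliptic curve `y² = 4 x³ - g₂ x - g₃` with rational `g₂`, `g₃` and let `Λ` be its lattice. Let `F_1, …, F_k` be
positive multiplicative functions of at most polynomial growth with `F_i p ≤ M p` and different values at the large primes
(for example Euler's function or the sum of the divisors), and `θ_1, …, θ_r` distinct natural numbers. We show that for all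
`m ∈ [1, N]^k` but `N^k / (log N)^U`, for every `U`, the following is true for all elliptic logarithms `l_{ij}` of the points
with the abscissas `F_i(m_i) + θ_j`, and for the group `Γ = Λ + ∑ ℤ l_{ij}`: for every `n` and all `p_1, …, p_n` in `Γ` which
are linearly independent over `ℤ` modulo `Λ`, every polynomial relation of degree at most `δ`, over a number field of degree
at most `δ`, between arbitrary constants `w_1, …, w_q` and the `4 n` numbers `p_i`, `ζ(p_i)`, `℘(p_i)`, `℘'(p_i)` is an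
identity in the `2 n` numbers `p_i`, `ζ(p_i)`.

The tuples `(F_1(m_1), …, F_k(m_k))` are taken with very large multiplicities, and so this does not follow from the size of
the exceptional set, which is only smaller than `T^k` by a factor `T^c` with a small positive `c`.

Proof. The starting theorem `GrowingDegreeSubgroups` of this problem bounds the number of the exceptional tuples of integers
by `C T^(k - c)`. The tool of helper733 (`Pool.Agent.N733.TG`): write `m_i = a_i b_i`, `a_i` composed of the small primes; for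
most `m` the `a_i` are at most `N^η`, and `F_i(b_i)` is taken at most `N^o(1)` times in mean square.
-/

set_option autoImplicit false

open scoped PeriodPair

namespace Pool.Agent.Results.MP_2ad15a_nt.MultiplicativeValues

open Pool.Agent.N733.TG (LM lm_totient lm_sigma keep_tuples2)
open Pool.Agent.Results.MP_2ad15a_nt.GrowingDegreeSubgroups (integers IsLogs InGroup Independent FreeOverPoints)

/-- All independent families of points of the group which is generated by the points with the abscissas `α_i + θ_j` are free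
over their points and `w`, for relations of degree `≤ δ` over number fields of degree `≤ δ`. -/
def Good (Λ : PeriodPair) (δ : ℕ) {k r q : ℕ} (θ : Fin r → ℕ) (w : Fin q → ℂ) (α : Fin k → ℂ) : Prop :=
  ∀ l : Fin k × Fin r → ℂ, IsLogs Λ θ α l →
    ∀ (n : ℕ) (p : Fin n → ℂ), InGroup Λ l p → Independent Λ p → FreeOverPoints Λ δ w p

lemma integers_one (T : ℕ) : integers 1 T ⊆ (fun n : ℤ => (n : ℂ)) '' (Set.Icc (-(T : ℤ)) T) := by
  rintro α ⟨h1, h2, h3⟩
  have hq : IsIntegral ℚ α := h1.tower_top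
  have hr : α ∈ (algebraMap ℚ ℂ).range := by
    rw [← minpoly.natDegree_eq_one_iff]
    have := minpoly.natDegree_pos hq
    omega
  obtain ⟨x, hx⟩ := hr
  have hx1 : IsIntegral ℤ x := by
    rw [← isIntegral_algebraMap_iff (algebraMap ℚ ℂ).injective, hx]
    exact h1
  obtain ⟨n, hn⟩ := IsIntegrallyClosed.isIntegral_iff.1 hx1
  have hα : α = (n : ℂ) := by
    rw [← hx, ← hn]
    simp
  have h4 := h3 α (minpoly.aeval ℚ α)
  refine ⟨n, ?_, hα.symm⟩
  rw [hα, Complex.norm_intCast] at h4
  have h5 : |n| ≤ (T : ℤ) := by exact_mod_cast h4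
  exact abs_le.1 h5

lemma integers_card (T : ℕ) (hT : 1 ≤ T) : ((integers 1 T).ncard : ℝ) ≤ 3 * T := by
  have h1 := Set.ncard_le_ncard (integers_one T) ((Set.finite_Icc (-(T : ℤ)) T).image _)
  have h2 := h1.trans (Set.ncard_image_le (Set.finite_Icc (-(T : ℤ)) T))
  rw [← Finset.coe_Icc, Set.ncard_coe_finset, Int.card_Icc] at h2
  have h3 : (integers 1 T).ncard ≤ 3 * T := by omega
  exact_mod_cast h3

lemma nat_mem (T v : ℕ) (hv : v ≤ T) : (v : ℂ) ∈ integers 1 T := by
  have h0 : (v : ℂ) = algebraMap ℚ ℂ (v : ℚ) := by simp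
  have h1 : minpoly ℚ (v : ℂ) = Polynomial.X - Polynomial.C (v : ℚ) := by
    rw [h0]
    exact minpoly.eq_X_sub_C ℂ (v : ℚ)
  refine ⟨?_, ?_, ?_⟩
  · have : (v : ℂ) = algebraMap ℤ ℂ (v : ℤ) := by simp
    rw [this]
    exact isIntegral_algebraMap
  · rw [h1, Polynomial.natDegree_X_sub_C]
  · intro z hz
    rw [h1] at hz
    simp only [map_sub, Polynomial.aeval_X, Polynomial.aeval_C] at hz
    have hz1 : z = (v : ℂ) := by
      rw [sub_eq_zero] at hz
      rw [hz, ← h0]
    rw [hz1, Complex.norm_natCast]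
    exact_mod_cast hv

/-- **The elliptic Schanuel bound at the values of multiplicative functions.** Let `Λ` be a lattice with rational invariants,
`θ_1, …, θ_r` distinct natural numbers, `k ≥ 1`, `F_1, …, F_k` multiplicative and positive, of at most polynomial growth, with
`F_i p ≤ M p` at the large primes, and injective there, and let `q`, `δ`, `U` be natural numbers. For all large `N` and all
`w_1, …, w_q ∈ ℂ`, for all `m ∈ [1, N]^k` but `N^k / (log N)^U`, all `F_i(m_i)` are at least `2` and all families `p_1, …, p_n`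
(`n` arbitrary) in all the groups `Λ + ∑ ℤ l_{ij}`, `℘(l_{ij}) = F_i(m_i) + θ_j`, which are independent modulo `Λ` are free
over their points and `w`, for relations of degree at most `δ` over number fields of degree at most `δ`. Euler's function and
the sum of the divisors are examples of such functions. -/
theorem result :
    (∀ (Λ : PeriodPair) (a b : ℚ), Λ.g₂ = a → Λ.g₃ = b → ∀ (k r q : ℕ), 1 ≤ k →
      ∀ θ : Fin r → ℕ, Function.Injective θ → ∀ F : Fin k → ℕ → ℕ, (∀ i, LM (F i)) → ∀ δ U : ℕ,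
      ∃ N₀ : ℕ, ∀ N : ℕ, N₀ ≤ N → ∀ w : Fin q → ℂ,
        ({m : Fin k → ℕ | (∀ i, 1 ≤ m i ∧ m i ≤ N) ∧
          ¬ ((∀ i, 2 ≤ F i (m i)) ∧ Good Λ δ θ w fun i => (F i (m i) : ℂ))}.ncard : ℝ) ≤
          (N : ℝ) ^ k / Real.log N ^ U) ∧
    LM Nat.totient ∧ LM (fun m => ∑ d ∈ m.divisors, d) := by
  refine ⟨fun Λ a b ha hb k r q hk θ hθ F hF δ U => ?_, lm_totient, lm_sigma⟩
  obtain ⟨C, h⟩ := GrowingDegreeSubgroups.result Λ a b ha hb 1 k r q le_rfl θ hθ
  have hc : (0 : ℝ) < 1 / ((δ : ℝ) + 2) ^ C := by positivity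
  obtain ⟨N₀, hN₀⟩ := keep_tuples2 hk hF hc U ((C : ℝ) * 3 ^ k)
  refine ⟨N₀, fun N hN w => ?_⟩
  have h1 := hN₀ N hN {v : Fin k → ℕ | ¬ Good Λ δ θ w fun i => (v i : ℂ)} (fun X hX => ?_)
  · simpa only [Set.mem_ofPred_eq, not_not] using h1
  · obtain ⟨hf, hle⟩ := h δ w X hX
    have hX0 : (0 : ℝ) < X := by exact_mod_cast hX
    have hsub : (fun (v : Fin k → ℕ) (i : Fin k) => (v i : ℂ)) ''
        {v : Fin k → ℕ | (∀ i, 2 ≤ v i ∧ v i ≤ X) ∧ v ∈ {v : Fin k → ℕ | ¬ Good Λ δ θ w fun i => (v i : ℂ)}} ⊆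
        {α : Fin k → ℂ | (∀ i, α i ∈ integers 1 X) ∧ ¬ ∀ l : Fin k × Fin r → ℂ, IsLogs Λ θ α l →
          ∀ (n : ℕ) (p : Fin n → ℂ), InGroup Λ l p → Independent Λ p → FreeOverPoints Λ δ w p} := by
      rintro _ ⟨v, ⟨hv1, hv2⟩, rfl⟩
      exact ⟨fun i => nat_mem X (v i) (hv1 i).2, hv2⟩
    have hinj : Function.Injective (fun (v : Fin k → ℕ) (i : Fin k) => (v i : ℂ)) := by
      intro u v huv
      funext i
      exact Nat.cast_injective (congrFun huv i)
    have hfin : {α : Fin k → ℂ | (∀ i, α i ∈ integers 1 X) ∧ ¬ ∀ l : Fin k × Fin r → ℂ, IsLogs Λ θ α l →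
          ∀ (n : ℕ) (p : Fin n → ℂ), InGroup Λ l p → Independent Λ p → FreeOverPoints Λ δ w p}.Finite := by
      apply (Set.Finite.pi' fun _ : Fin k => hf).subset
      rintro α ⟨h1, _⟩
      exact h1
    have h2 := Set.ncard_le_ncard hsub hfin
    rw [Set.ncard_image_of_injective _ hinj] at h2
    have h3 : ((integers 1 X).ncard : ℝ) ^ k ≤ (3 * (X : ℝ)) ^ k :=
      pow_le_pow_left₀ (Nat.cast_nonneg _) (integers_card X hX) k
    calc _ ≤ (({α : Fin k → ℂ | (∀ i, α i ∈ integers 1 X) ∧ ¬ ∀ l : Fin k × Fin r → ℂ, IsLogs Λ θ α l →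
          ∀ (n : ℕ) (p : Fin n → ℂ), InGroup Λ l p → Independent Λ p → FreeOverPoints Λ δ w p}.ncard : ℕ) : ℝ) := by
            exact_mod_cast h2
      _ ≤ C * (X : ℝ) ^ (-(1 / ((δ : ℝ) + 2) ^ C)) * ((integers 1 X).ncard : ℝ) ^ k := hle
      _ ≤ C * (X : ℝ) ^ (-(1 / ((δ : ℝ) + 2) ^ C)) * (3 * (X : ℝ)) ^ k :=
          mul_le_mul_of_nonneg_left h3 (by positivity)
      _ = C * 3 ^ k * (X : ℝ) ^ ((k : ℝ) - 1 / ((δ : ℝ) + 2) ^ C) := by
          rw [mul_pow, sub_eq_add_neg (k : ℝ), Real.rpow_add hX0, Real.rpow_natCast]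
          ring

end Pool.Agent.Results.MP_2ad15a_nt.MultiplicativeValues
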