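import Pool.Agent.N671.DA.Tup
import Pool.Agent.Results.MP_2ad15a_nt.MultiplicativeValues

/-!
# The elliptic analogue of Schanuel's conjecture at the best approximation vectors of systems of linear forms

Let `E` be the elliptic curve `y² = 4 x³ - g₂ x - g₃` with rational `g₂`, `g₃`, let `Λ` be its lattice and `θ_1, …, θ_r`
distinct natural numbers. Let `α` be a real matrix with `k` rows and `m` columns, `β` in `ℝ^m` and `τ > 0`. We consider the
integer vectors `v = (v_1, …, v_k)` with `‖(v α)_j - β_j‖ ≤ c |v| ^ (-τ)` for `j = 1, …, m`, `‖x‖` the distance to the nearest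
integer and `|v|` the maximum norm; for `β = 0`, `c = 1` and `τ = k / m` they include all best approximation vectors of the
system of the linear forms `v α`, by the theorem of Minkowski. We show that for all `α` outside a set of Hausdorff dimension
at most `(k - 1) m + (m + k - 1 / (δ + 2)^C) / (1 + τ)`, less than `k m` for `τ = k / m`, and so for almost all `α`, the
following is true for all large `v` of this kind and all elliptic logarithms `l_{ij}` of the points with the abscissas
`v_i + θ_j`: for all `p_1, …, p_n` in the group `Γ = Λ + ∑ ℤ l_{ij}` which are linearly independent over `ℤ` modulo `Λ`,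
every polynomial relation of degree at most `δ`, over a number field of degree at most `δ`, between the constants `w_1, …, w_q`
and the `4 n` numbers `p_i`, `ζ(p_i)`, `℘(p_i)`, `℘'(p_i)` is an identity in the `2 n` numbers `p_i`, `ζ(p_i)`.

The best approximation vectors are a very sparse sequence, about `log T` vectors of norm at most `T`, and so this does not
follow from the size of the exceptional set, which is only smaller than `T^k` by a factor `T^c` with a small positive `c`.

Proof. The starting theorem `GrowingDegreeSubgroups` of this problem bounds the number of the exceptional vectors by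
`C T^(k - c)`. The matrices `α` with `‖(v α)_j - β_j‖ ≤ c |v| ^ (-τ)` form neighbourhoods of parallel affine subspaces,
covered by cubes of side `|v| ^ (-1 - τ)` (`Pool.Agent.N671.DA`).
-/

set_option autoImplicit false

open scoped PeriodPair

namespace Pool.Agent.Results.MP_2ad15a_nt.BestApproximations

open Pool.Agent.N671.DA (Near thin_of_nat approx_vectors)
open Pool.Agent.Results.MP_2ad15a_nt.GrowingDegreeSubgroups (integers IsLogs InGroup Independent FreeOverPoints)
open Pool.Agent.Results.MP_2ad15a_nt.MultiplicativeValues (Good integers_card)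

lemma int_mem (T : ℕ) (v : ℤ) (hv : |v| ≤ (T : ℤ)) : (v : ℂ) ∈ integers 1 T := by
  have h0 : (v : ℂ) = algebraMap ℚ ℂ (v : ℚ) := by simp
  have h1 : minpoly ℚ (v : ℂ) = Polynomial.X - Polynomial.C (v : ℚ) := by
    rw [h0]
    exact minpoly.eq_X_sub_C ℂ (v : ℚ)
  refine ⟨?_, ?_, ?_⟩
  · have : (v : ℂ) = algebraMap ℤ ℂ v := by simp
    rw [this]
    exact isIntegral_algebraMap
  · rw [h1, Polynomial.natDegree_X_sub_C]
  · intro z hz
    rw [h1] at hz
    simp only [map_sub, Polynomial.aeval_X, Polynomial.aeval_C] at hz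
    have hz1 : z = (v : ℂ) := by
      rw [sub_eq_zero] at hz
      rw [hz, ← h0]
    rw [hz1, Complex.norm_intCast]
    exact_mod_cast hv

/-- **The elliptic Schanuel bound at the best approximation vectors.** Let `Λ` be a lattice with rational invariants,
`θ_1, …, θ_r` distinct natural numbers, `k ≥ 1` and `q` natural numbers. There is `C` such that for all `w_1, …, w_q ∈ ℂ`,
`β ∈ ℝ^m`, `τ > 0` and `δ`, for all real matrices `α` with `k` rows and `m` columns outside a set of Hausdorff dimension at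
most `(k - 1) m + (m + k - 1 / (δ + 2)^C) / (1 + τ)` and all `c`, for all large integer vectors `v` with
`‖(v α)_j - β_j‖ ≤ c |v| ^ (-τ)` for all `j`, all families `p_1, …, p_n` (`n` arbitrary) in all the groups `Λ + ∑ ℤ l_{ij}`,
`℘(l_{ij}) = v_i + θ_j`, which are independent modulo `Λ` are free over their points and `w`, for relations of degree at
most `δ` over number fields of degree at most `δ`. -/
theorem result (Λ : PeriodPair) (a b : ℚ) (ha : Λ.g₂ = a) (hb : Λ.g₃ = b) (k r q : ℕ) (hk : 1 ≤ k) (θ : Fin r → ℕ)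
    (hθ : Function.Injective θ) :
    ∃ C : ℕ, ∀ (w : Fin q → ℂ) (m : ℕ) (β : Fin m → ℝ) (τ : ℝ), 0 < τ → ∀ δ : ℕ,
      ∃ E : Set (Fin k × Fin m → ℝ),
        dimH E ≤ ENNReal.ofReal (((k : ℝ) - 1) * m + (m + ((k : ℝ) - 1 / ((δ : ℝ) + 2) ^ C)) / (1 + τ)) ∧
        ∀ α, α ∉ E → ∀ c : ℝ, ∃ Q : ℝ, ∀ v : Fin k → ℤ, Q ≤ ‖v‖ → Near α β v (c * ‖v‖ ^ (-τ)) →
          Good Λ δ θ w fun i => (v i : ℂ) := by
  obtain ⟨C, h⟩ := GrowingDegreeSubgroups.result Λ a b ha hb 1 k r q le_rfl θ hθ
  refine ⟨C, fun w m β τ hτ δ => ?_⟩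
  have hc1 : 1 / ((δ : ℝ) + 2) ^ C ≤ 1 := by
    rw [div_le_one (by positivity)]
    have : (0 : ℝ) ≤ δ := Nat.cast_nonneg δ
    exact one_le_pow₀ (by linarith)
  have hk1 : (1 : ℝ) ≤ k := by exact_mod_cast hk
  obtain ⟨W, hW⟩ : ∃ W : Set (Fin k → ℤ), W = {v | ¬ Good Λ δ θ w fun i => (v i : ℂ)} := ⟨_, rfl⟩
  have hT : Pool.Agent.N671.DA.Thin W ((k : ℝ) - 1 / ((δ : ℝ) + 2) ^ C) := by
    refine thin_of_nat (C₀ := (C : ℝ) * 3 ^ k) (by linarith) fun X hX => ?_
    obtain ⟨hf, hle⟩ := h δ w X hX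
    have hX0 : (0 : ℝ) < X := by exact_mod_cast hX
    have hsub : (fun (v : Fin k → ℤ) (i : Fin k) => (v i : ℂ)) '' {v : Fin k → ℤ | (∀ i, |v i| ≤ (X : ℤ)) ∧ v ∈ W} ⊆
        {α : Fin k → ℂ | (∀ i, α i ∈ integers 1 X) ∧ ¬ ∀ l : Fin k × Fin r → ℂ, IsLogs Λ θ α l →
          ∀ (n : ℕ) (p : Fin n → ℂ), InGroup Λ l p → Independent Λ p → FreeOverPoints Λ δ w p} := by
      rintro _ ⟨v, ⟨hv1, hv2⟩, rfl⟩
      rw [hW] at hv2
      exact ⟨fun i => int_mem X (v i) (hv1 i), hv2⟩
    have hinj : Function.Injective (fun (v : Fin k → ℤ) (i : Fin k) => (v i : ℂ)) := by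
      intro u v huv
      funext i
      exact Int.cast_injective (congrFun huv i)
    have hfin : {α : Fin k → ℂ | (∀ i, α i ∈ integers 1 X) ∧ ¬ ∀ l : Fin k × Fin r → ℂ, IsLogs Λ θ α l →
          ∀ (n : ℕ) (p : Fin n → ℂ), InGroup Λ l p → Independent Λ p → FreeOverPoints Λ δ w p}.Finite := by
      apply (Set.Finite.pi' fun _ : Fin k => hf).subset
      rintro α ⟨h1, _⟩
      exact h1
    have h2 := Set.ncard_le_ncard hsub hfin
    rw [Set.ncard_image_of_injective _ hinj] at h2
    have h3 : ((integers 1 X).ncard : ℝ) ^ k ≤ (3 * (X : ℝ)) ^ k :=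
      pow_le_pow_left₀ (Nat.cast_nonneg _) (integers_card X hX) k
    calc _ ≤ (({α : Fin k → ℂ | (∀ i, α i ∈ integers 1 X) ∧ ¬ ∀ l : Fin k × Fin r → ℂ, IsLogs Λ θ α l →
          ∀ (n : ℕ) (p : Fin n → ℂ), InGroup Λ l p → Independent Λ p → FreeOverPoints Λ δ w p}.ncard : ℕ) : ℝ) := by
            exact_mod_cast h2
      _ ≤ C * (X : ℝ) ^ (-(1 / ((δ : ℝ) + 2) ^ C)) * ((integers 1 X).ncard : ℝ) ^ k := hle
      _ ≤ C * (X : ℝ) ^ (-(1 / ((δ : ℝ) + 2) ^ C)) * (3 * (X : ℝ)) ^ k :=
          mul_le_mul_of_nonneg_left h3 (by positivity)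
      _ = C * 3 ^ k * (X : ℝ) ^ ((k : ℝ) - 1 / ((δ : ℝ) + 2) ^ C) := by
          rw [mul_pow, sub_eq_add_neg (k : ℝ), Real.rpow_add hX0, Real.rpow_natCast]
          ring
  obtain ⟨E, hE, hE2⟩ := approx_vectors hk W (s := (k : ℝ) - 1 / ((δ : ℝ) + 2) ^ C) (by linarith) hT β hτ
  refine ⟨E, hE, fun α hα c => ?_⟩
  obtain ⟨Q, hQ⟩ := hE2 α hα c
  refine ⟨Q, fun v hv h1 => ?_⟩
  have h2 := hQ v hv h1
  rw [hW] at h2
  simpa only [Set.mem_ofPred_eq, not_not] using h2

end Pool.Agent.Results.MP_2ad15a_nt.BestApproximations
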