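import Pool.Agent.N113.SA.Lat

/-!
# The elliptic analogue of Schanuel's conjecture is equivalent to a statement on linear relations

Let `Ω = ℤ ω₁ + ℤ ω₂` be a lattice, `k` the field `ℚ(ω₂/ω₁)` if `ω₂/ω₁` is quadratic and `ℚ` otherwise, and
`p_1, …, p_n` complex numbers outside `Ω` which are linearly independent over `k`. We consider the additive
(that is, `ℚ`-linear) maps `D : ℂ → ℂ` which vanish at the algebraic numbers and which, **on the `k`-span `V`
of `p_1, …, p_n` only**, are `k`-linear and satisfy the rule of differentiation for inverses,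
`D (1 / v) = - D (v) / v²` for `v ∈ V`. Nothing is required of products, and nothing at all of the
numbers `g₂`, `g₃`, `℘(p_i)`, `ζ(p_i)`: the only relations between the coordinates `g₂`, `g₃`, `p_i`, `℘(p_i)`,
`ζ(p_i)` which `D` takes into account are the `ℚ`-linear relations between them and the numbers `1 / v`,
`v ∈ V`, modulo algebraic numbers. The values of these maps at the `3 n + 2` coordinates form a space of
vectors; it contains the vectors given by the derivations of `ℂ`, its dimension is at least the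
transcendence degree of `ℚ(g₂, g₃, p_i, ℘(p_i), ζ(p_i))`, and it can be much larger.

We prove: the conjecture (transcendence degree at least `2 n`, for all lattices, all `n` and all `p`) holds
if and only if this space has dimension at least `2 n` for all lattices, all `n` and all `p`. Moreover,
without any hypothesis, for every lattice, every tuple `p` and every integer `d`: all the tuples
containing `p` satisfy the bound `2 (number of points) + d` for the transcendence degree if and only if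
all of them satisfy this bound for the dimension.

Proof: every complex number `y` for which `D y` is determined by the values of `D` at the coordinates can be
added to the tuple (or is in the span); this costs nothing, because the two values `℘(y)`, `ζ(y)` are
paid by the point `y`. For a number `x` of the ring generated by the coordinates we add `x`, `x + 1` and
`w = 1 / (x + 1) - 1 / x`; then `x² = - 1 / w - x` and `D` satisfies the rule of differentiation for `x²`. So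
all polynomial relations are consequences of linear relations between the coordinates of a larger
tuple.
-/

set_option autoImplicit false

open Pool.Agent.N113

namespace Pool.Agent.Results.MP_2ad15a_nt.InversesSuffice

/-- The point `x₁ ω₁ + x₂ ω₂` of the lattice. -/
noncomputable def lattice (ω₁ ω₂ : ℂ) (x : ℤ × ℤ) : ℂ := (x.1 : ℂ) * ω₁ + (x.2 : ℂ) * ω₂

/-- The Weierstrass `℘`-function. -/
noncomputable def wp (ω₁ ω₂ z : ℂ) : ℂ := 1 / z ^ 2 + ∑' x : ℤ × ℤ,
  (if x = 0 then (0 : ℂ) else (1 / (z - lattice ω₁ ω₂ x) ^ 2 - 1 / (lattice ω₁ ω₂ x) ^ 2))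

/-- The Weierstrass zeta function. -/
noncomputable def zeta (ω₁ ω₂ z : ℂ) : ℂ := 1 / z + ∑' x : ℤ × ℤ,
  (if x = 0 then (0 : ℂ) else
    (1 / (z - lattice ω₁ ω₂ x) + 1 / lattice ω₁ ω₂ x + z / (lattice ω₁ ω₂ x) ^ 2))

/-- The invariants `g₂`, `g₃`. -/
noncomputable def invariants (ω₁ ω₂ : ℂ) : Fin 2 → ℂ :=
  ![60 * ∑' x : ℤ × ℤ, (if x = 0 then (0 : ℂ) else 1 / (lattice ω₁ ω₂ x) ^ 4),
    140 * ∑' x : ℤ × ℤ, (if x = 0 then (0 : ℂ) else 1 / (lattice ω₁ ω₂ x) ^ 6)]

/-- The number `τ` is quadratic. -/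
def Quadratic (τ : ℂ) : Prop := ∃ a b c : ℤ, a ≠ 0 ∧ (a : ℂ) * τ ^ 2 + b * τ + c = 0

open Classical in
/-- The field `k`: `ℚ(τ)` if `τ` is quadratic, and `ℚ` otherwise. -/
noncomputable def endomorphismField (τ : ℂ) : Subfield ℂ :=
  if Quadratic τ then Subfield.closure {τ} else ⊥

/-- Numbers outside the lattice which are linearly independent over `k`. -/
structure General (ω₁ ω₂ : ℂ) {κ : Type} [Fintype κ] (p : κ → ℂ) : Prop where
  off : ∀ i, ∀ x : ℤ × ℤ, p i ≠ lattice ω₁ ω₂ x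
  independent : ∀ c : κ → ℂ, (∀ i, c i ∈ endomorphismField (ω₂ / ω₁)) → ∑ i, c i * p i = 0 →
    ∀ i, c i = 0

/-- The coordinates `g₂`, `g₃` and `p_i`, `℘(p_i)`, `ζ(p_i)`. -/
noncomputable def coordinate (ω₁ ω₂ : ℂ) {κ : Type} (p : κ → ℂ) : Fin 2 ⊕ κ × Fin 3 → ℂ :=
  Sum.elim (invariants ω₁ ω₂) fun x => ![p x.1, wp ω₁ ω₂ (p x.1), zeta ω₁ ω₂ (p x.1)] x.2

/-- The elliptic analogue of Schanuel's conjecture. -/
def Conjecture : Prop := ∀ ω₁ ω₂ : ℂ, LinearIndependent ℝ ![ω₁, ω₂] →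
  ∀ (n : ℕ) (p : Fin n → ℂ), General ω₁ ω₂ p →
    ∃ f : Fin (2 * n) → Fin 2 ⊕ Fin n × Fin 3,
      AlgebraicIndependent ℚ fun m => coordinate ω₁ ω₂ p (f m)

/-- The additive map `D` vanishes at the algebraic numbers; on the `k`-span of the numbers `p i` it is
`k`-linear and satisfies the rule of differentiation for inverses. -/
def Admissible (ω₁ ω₂ : ℂ) {κ : Type} (p : κ → ℂ) (D : ℂ →ₗ[ℚ] ℂ) : Prop :=
  (∀ a : ℂ, IsAlgebraic ℚ a → D a = 0) ∧
    ∀ v ∈ Submodule.span (endomorphismField (ω₂ / ω₁)) (Set.range p),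
      (∀ a ∈ endomorphismField (ω₂ / ω₁), D (a * v) = a * D v) ∧ D v⁻¹ = -D v / v ^ 2

/-- The vectors of the values of the admissible maps at the coordinates. -/
noncomputable def space (ω₁ ω₂ : ℂ) {κ : Type} (p : κ → ℂ) :
    Submodule ℂ (Fin 2 ⊕ κ × Fin 3 → ℂ) where
  carrier := {v | ∃ D : ℂ →ₗ[ℚ] ℂ, Admissible ω₁ ω₂ p D ∧ v = fun x => D (coordinate ω₁ ω₂ p x)}
  zero_mem' := ⟨0, ⟨fun _ _ => rfl, fun v _ => ⟨fun a _ => by simp, by simp⟩⟩, rfl⟩
  add_mem' := by
    rintro _ _ ⟨D, ⟨h1, h2⟩, rfl⟩ ⟨D', ⟨h3, h4⟩, rfl⟩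
    refine ⟨D + D', ⟨fun a ha => ?_, fun v hv => ⟨fun a ha => ?_, ?_⟩⟩, rfl⟩
    · rw [LinearMap.add_apply, h1 a ha, h3 a ha, add_zero]
    · rw [LinearMap.add_apply, LinearMap.add_apply, (h2 v hv).1 a ha, (h4 v hv).1 a ha, mul_add]
    · rw [LinearMap.add_apply, LinearMap.add_apply, (h2 v hv).2, (h4 v hv).2]
      ring
  smul_mem' := by
    rintro c _ ⟨D, ⟨h1, h2⟩, rfl⟩
    refine ⟨c • D, ⟨fun a ha => ?_, fun v hv => ⟨fun a ha => ?_, ?_⟩⟩, rfl⟩
    · rw [LinearMap.smul_apply, h1 a ha, smul_zero]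
    · rw [LinearMap.smul_apply, LinearMap.smul_apply, (h2 v hv).1 a ha, smul_eq_mul, smul_eq_mul]
      ring
    · rw [LinearMap.smul_apply, LinearMap.smul_apply, (h2 v hv).2, smul_eq_mul, smul_eq_mul]
      ring

/-- the values at a point -/
noncomputable def values (ω₁ ω₂ z : ℂ) : Fin 2 → ℂ := ![wp ω₁ ω₂ z, zeta ω₁ ω₂ z]

/-- the names of the coordinates -/
def names (κ : Type) : κ × Option (Fin 2) ⊕ Fin 2 ≃ Fin 2 ⊕ κ × Fin 3 :=
  (Equiv.sumComm _ _).trans
    (Equiv.sumCongr (Equiv.refl _) (Equiv.prodCongr (Equiv.refl κ) (finSuccEquiv 2).symm))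

theorem names_apply (ω₁ ω₂ : ℂ) {κ : Type} (p : κ → ℂ) (x : κ × Option (Fin 2) ⊕ Fin 2) :
    coordinate ω₁ ω₂ p (names κ x) = SA.co (values ω₁ ω₂) (invariants ω₁ ω₂) p x := by
  rcases x with ⟨i, _ | a⟩ | x
  · rfl
  · change ![p i, wp ω₁ ω₂ (p i), zeta ω₁ ω₂ (p i)] a.succ = values ω₁ ω₂ (p i) a
    fin_cases a <;> rfl
  · rfl

theorem VV_eq (ω₁ ω₂ : ℂ) (A : SA.Tup) :
    SA.VV (endomorphismField (ω₂ / ω₁)) ⊥ A =
      Submodule.span (endomorphismField (ω₂ / ω₁)) (Set.range A.t) := bot_sup_eq _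

theorem finrank_space (ω₁ ω₂ : ℂ) (A : SA.Tup) :
    Module.finrank ℂ (space ω₁ ω₂ A.t) = Module.finrank ℂ
      (SA.Der (values ω₁ ω₂) (invariants ω₁ ω₂) (SA.DD (endomorphismField (ω₂ / ω₁)) ⊥) A) := by
  refine SA.finrank_names A (names A.κ) (coordinate ω₁ ω₂ A.t) (names_apply ω₁ ω₂ A.t) _
    fun v => ?_
  constructor
  · rintro ⟨D, ⟨h1, h2⟩, rfl⟩
    exact ⟨D, ⟨h1, fun v hv => h2 v (by rw [VV_eq] at hv; exact hv)⟩, rfl⟩
  · rintro ⟨D, ⟨h1, h2⟩, rfl⟩
    exact ⟨D, ⟨h1, fun v hv => h2 v (by rw [VV_eq]; exact hv)⟩, rfl⟩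

theorem general_iff (ω₁ ω₂ : ℂ) (A : SA.Tup) : General ω₁ ω₂ A.t ↔
    SA.Ind (endomorphismField (ω₂ / ω₁)) ⊥ {z | ∀ x : ℤ × ℤ, z ≠ SA.lat ω₁ ω₂ x} A :=
  ⟨fun h => ⟨h.1, fun c hc hs => h.2 c hc ((Submodule.mem_bot _).1 hs)⟩,
    fun h => ⟨h.1, fun c hc hs => h.2 c hc ((Submodule.mem_bot _).2 hs)⟩⟩

/-- **The elliptic analogue of Schanuel's conjecture is equivalent to a statement on linear relations**;
and the smallest defects over all the extensions of a given tuple are equal. -/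
theorem result :
    (Conjecture ↔ ∀ ω₁ ω₂ : ℂ, LinearIndependent ℝ ![ω₁, ω₂] →
      ∀ (κ : Type) [Fintype κ] (p : κ → ℂ), General ω₁ ω₂ p →
        2 * Fintype.card κ ≤ Module.finrank ℂ (space ω₁ ω₂ p)) ∧
    ∀ ω₁ ω₂ : ℂ, LinearIndependent ℝ ![ω₁, ω₂] →
      ∀ (ι : Type) [Fintype ι] (p : ι → ℂ) (d : ℤ),
      (∀ (κ : Type) [Fintype κ] (y : κ → ℂ), General ω₁ ω₂ y → Set.range p ⊆ Set.range y →
        ∃ s : Finset (Fin 2 ⊕ κ × Fin 3),
          AlgebraicIndependent ℚ (fun x : s => coordinate ω₁ ω₂ y x) ∧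
            2 * (Fintype.card κ : ℤ) + d ≤ s.card) ↔
      (∀ (κ : Type) [Fintype κ] (y : κ → ℂ), General ω₁ ω₂ y → Set.range p ⊆ Set.range y →
        2 * (Fintype.card κ : ℤ) + d ≤ Module.finrank ℂ (space ω₁ ω₂ y)) := by
  have hcard : ∀ κ : Type, ∀ _ : Fintype κ, ((Fintype.card (Fin 2) * Fintype.card κ : ℕ) : ℤ) =
      2 * (Fintype.card κ : ℤ) := by
    intro κ _
    rw [Fintype.card_fin]
    push_cast
    ring
  have hloc : ∀ ω₁ ω₂ : ℂ, LinearIndependent ℝ ![ω₁, ω₂] →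
      ∀ (ι : Type) [Fintype ι] (p : ι → ℂ) (d : ℤ),
      (∀ (κ : Type) [Fintype κ] (y : κ → ℂ), General ω₁ ω₂ y → Set.range p ⊆ Set.range y →
        ∃ s : Finset (Fin 2 ⊕ κ × Fin 3),
          AlgebraicIndependent ℚ (fun x : s => coordinate ω₁ ω₂ y x) ∧
            2 * (Fintype.card κ : ℤ) + d ≤ s.card) ↔
      (∀ (κ : Type) [Fintype κ] (y : κ → ℂ), General ω₁ ω₂ y → Set.range p ⊆ Set.range y →
        2 * (Fintype.card κ : ℤ) + d ≤ Module.finrank ℂ (space ω₁ ω₂ y)) := by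
    intro ω₁ ω₂ hω ι _ z d
    have h1 := SA.lin_iff (K := endomorphismField (ω₂ / ω₁)) (W := ⊥)
      (X := {z | ∀ x : ℤ × ℤ, z ≠ SA.lat ω₁ ω₂ x}) (SA.alg_endField (ω₂ / ω₁))
      (fun w hw => SA.exists_off hω fun h => hw (by rw [h]; exact Submodule.zero_mem _))
      (values ω₁ ω₂) (invariants ω₁ ω₂) ⟨ι, z⟩ d
    have hsub : ∀ (κ : Type) (_ : Fintype κ) (y : κ → ℂ),
        Set.range z ⊆ Set.range y ↔ SA.Sub ⟨ι, z⟩ ⟨κ, y⟩ := by
      intro κ _ y
      constructor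
      · intro h
        choose g hg using fun i => h ⟨i, rfl⟩
        exact ⟨g, hg⟩
      · rintro ⟨g, hg⟩ _ ⟨i, rfl⟩
        exact ⟨g i, hg i⟩
    constructor
    · intro h κ _ y hy hzy
      have h2 := h1.1 (fun B hB hAB => by
        have h3 := h B.κ B.t ((general_iff ω₁ ω₂ B).2 hB) ((hsub _ _ _).2 hAB)
        rw [hcard]
        exact (SA.indep_names B.t (names B.κ) _ (names_apply ω₁ ω₂ B.t) _).2 h3) ⟨κ, y⟩
          ((general_iff ω₁ ω₂ ⟨κ, y⟩).1 hy) ((hsub _ _ _).1 hzy)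
      rw [hcard] at h2
      rw [← finrank_space] at h2
      exact h2
    · intro h κ _ y hy hzy
      have h2 := h1.2 (fun B hB hAB => by
        have h3 := h B.κ B.t ((general_iff ω₁ ω₂ B).2 hB) ((hsub _ _ _).2 hAB)
        rw [hcard, ← finrank_space]
        exact h3) ⟨κ, y⟩ ((general_iff ω₁ ω₂ ⟨κ, y⟩).1 hy) ((hsub _ _ _).1 hzy)
      rw [hcard] at h2
      exact (SA.indep_names y (names κ) _ (names_apply ω₁ ω₂ y) _).1 h2
  refine ⟨?_, hloc⟩
  have hran : ∀ (κ : Type) (y : κ → ℂ), Set.range (Empty.elim : Empty → ℂ) ⊆ Set.range y := by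
    rintro κ y _ ⟨i, -⟩
    exact i.elim
  constructor
  · intro h ω₁ ω₂ hω κ _ p hp
    have h0 := (hloc ω₁ ω₂ hω Empty Empty.elim 0).1 (by
      intro κ _ y hy _
      let e := Fintype.equivFin κ
      have hy' : General ω₁ ω₂ (y ∘ e.symm) :=
        ⟨fun i => hy.off _, fun c hc hs i => by
          have h1 := hy.independent (c ∘ e) (fun i => hc _) (by
            rw [← hs, ← Equiv.sum_comp e]
            exact Finset.sum_congr rfl fun i _ => by simp) (e.symm i)
          simpa using h1⟩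
      obtain ⟨f, hf⟩ := h ω₁ ω₂ hω _ _ hy'
      let g : Fin 2 ⊕ Fin (Fintype.card κ) × Fin 3 → Fin 2 ⊕ κ × Fin 3 :=
        Sum.map id (Prod.map e.symm id)
      have hg : ∀ x, coordinate ω₁ ω₂ y (g x) = coordinate ω₁ ω₂ (y ∘ e.symm) x := by
        rintro (x | x) <;> rfl
      obtain ⟨s, hs, h2⟩ := (SA.indep_fin (coordinate ω₁ ω₂ y) (2 * Fintype.card κ)).2
        ⟨fun k => g (f k), by
          simp only [hg]
          exact hf⟩
      refine ⟨s, hs, ?_⟩
      rw [add_zero]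
      exact_mod_cast h2) κ p hp (hran _ _)
    rw [add_zero] at h0
    exact_mod_cast h0
  · intro h ω₁ ω₂ hω n p hp
    have h0 := (hloc ω₁ ω₂ hω Empty Empty.elim 0).2 (by
      intro κ _ y hy _
      have h1 := h ω₁ ω₂ hω κ y hy
      rw [add_zero]
      exact_mod_cast h1) (Fin n) p hp (hran _ _)
    obtain ⟨s, hs, h1⟩ := h0
    rw [add_zero, Fintype.card_fin] at h1
    exact (SA.indep_fin (coordinate ω₁ ω₂ p) (2 * n)).1 ⟨s, hs, by exact_mod_cast h1⟩

end Pool.Agent.Results.MP_2ad15a_nt.InversesSuffice
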